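import Pool.Agent.Work.MP_46fa68_27.LargeU
import Pool.Agent.Work.MP_46fa68_86.Unif5
import Pool.Agent.Work.MP_46fa68_67.CrossU
import Pool.Agent.Work.MP_46fa68_h10.W23D

/-!
# MP_46fa68_co, `m = 24`: `Holds 47 23` from the product form with `W = 63 / 50` (helper10)

Assembly: helper27's `LargeU`, helper36's `LargeW`; the end is helper74's endgame (helper86's `holds_D`).
-/

set_option autoImplicit false

open Finset Equiv

namespace Pool.EGX

open Pool.JM Pool.JM.Rare Pool.OS Pool.OB Pool.TW Pool.TW.H27 Pool.EG Pool.NV Pool.EGL Pool.NW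
  Pool.NW.H10

/-! ### exactness of the lists -/

theorem C2_zero (m p : ℕ) : vC cfC2 m 100 0 p = 0 := by
  unfold vC cfC2
  simp [pev]

theorem C2_one (m p : ℕ) : vC cfC2 m 100 1 p = 0 := by
  unfold vC cfC2
  simp [pev]

theorem C2_sv {t : ℕ} (ht : 1 ≤ t) : sv (t + 1) 2 (vC cfC2 t 100 2) = 0 := by
  have h0 : (0 : ℝ) < t := by exact_mod_cast ht
  have hf : ((t + 1).factorial : ℝ) ≠ 0 := by exact_mod_cast Nat.factorial_ne_zero _
  have e : ((t + 1 + 1).factorial : ℝ) = ((t : ℝ) + 2) * (t + 1).factorial := by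
    rw [Nat.factorial_succ]
    push_cast
    ring
  unfold sv
  rw [sum_range_succ, sum_range_one, e, Nat.add_zero]
  unfold vC cfC2
  simp [pev]
  field_simp
  ring

theorem D2_ex {t : ℕ} (ht : 2 ≤ t) : ∑ p ∈ range 2, vC cfD2 t 100 0 p * r1 t p = 0 := by
  have h0 : (2 : ℝ) ≤ t := by exact_mod_cast ht
  have hf : (t.factorial : ℝ) ≠ 0 := by exact_mod_cast Nat.factorial_ne_zero _
  have e : ((t + 1).factorial : ℝ) = ((t : ℝ) + 1) * t.factorial := by
    rw [Nat.factorial_succ]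
    push_cast
    ring
  have e1 : ((t - 1 : ℕ) : ℝ) = (t : ℝ) - 1 := by
    rw [Nat.cast_sub (by omega)]
    push_cast
    ring
  have h1 : (t : ℝ) - 1 ≠ 0 := by
    intro h
    linarith
  have h2 : (t : ℝ) + 1 ≠ 0 := by positivity
  have h3 : (t : ℝ) ≠ 0 := by positivity
  unfold r1
  rw [sum_range_succ, sum_range_one, e, e1, Nat.add_zero]
  unfold vC cfD2
  simp [pev]
  field_simp
  ring

theorem D2_sv {t : ℕ} (ht : 1 ≤ t) : sv t 2 (vC cfD2 t 100 1) = 1 := by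
  have h0 : (0 : ℝ) < t := by exact_mod_cast ht
  have hf : (t.factorial : ℝ) ≠ 0 := by exact_mod_cast Nat.factorial_ne_zero _
  have e : ((t + 1).factorial : ℝ) = ((t : ℝ) + 1) * t.factorial := by
    rw [Nat.factorial_succ]
    push_cast
    ring
  unfold sv
  rw [sum_range_succ, sum_range_one, e, Nat.add_zero]
  unfold vC cfD2
  simp [pev]
  field_simp
  ring

/-! ### the rare pairs -/

/-- the rare layer pairs -/
def JX : List (ℤ × ℤ) :=
  [(1, 2), (0, 1), (0, 2), (0, 3), (-1, 2), (-1, 3), (-1, 4), (-2, 3), (-2, 4), (-3, 4), (-3, 5),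
    (-4, 5), (-4, 6), (-5, 6), (-5, 7), (-6, 7), (-6, 8)]

/-- the same as rows at the base `23` -/
def RX : Finset (ℕ × ℕ) :=
  {(22, 22), (23, 23), (23, 22), (23, 21), (24, 22), (24, 21), (24, 20), (25, 21), (25, 20),
    (26, 20), (26, 19), (27, 19), (27, 18), (28, 18), (28, 17), (29, 17), (29, 16)}

theorem JX_bd : ∀ j ∈ JX, j.1 ≤ ((23 : ℕ) : ℤ) ∧ j.2 ≤ ((23 : ℕ) : ℤ) + 1 := by decide

theorem rowsOfX : rowsOf 23 JX = RX := by decide

theorem admX : Adm 23 RX := by decide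

theorem costX : ∑ l ∈ RX, Rare.cst 23 l.1 l.2 0 ≤ 1 / 20000 := by
  unfold RX
  repeat rw [Finset.sum_insert (by decide)]
  rw [Finset.sum_singleton]
  unfold Rare.cst
  norm_num [Nat.factorial]

/-! ### the three statements at `t = 23` -/

/-- off the rare layer pairs: `|d| ≤ c` -/
def MainX (t : ℕ) : Prop :=
  ∀ (k L b s : ℕ) (B : Finset ℕ), Two k L b s B → L + b + s = 2 * t →
    ((t : ℤ) - L, (t : ℤ) + 1 - b) ∉ JX →
    |HI (k + 2) t t 3 (vC cfD2 t 100) (tauC cfD2 t 100) B| ≤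
      63 / 50 + HI (k + 2) t (t - 1) 4 (vC cfC2 t 100) (tauC cfC2 t 100) B

/-- crude bounds -/
def CrudeX (t : ℕ) : Prop :=
  ∀ (k L b s : ℕ) (B : Finset ℕ), Two k L b s B → L + b + s = 2 * t →
    |63 / 50 + HI (k + 2) t (t - 1) 4 (vC cfC2 t 100) (tauC cfC2 t 100) B| ≤ 20 ∧
      |HI (k + 2) t t 3 (vC cfD2 t 100) (tauC cfD2 t 100) B| ≤ 20

theorem fD_C2 (m t K : ℕ) (B : Finset ℕ) :
    fD FC2 m t 100 K B = (63 / 50 + HI K m t 4 (vC cfC2 m 100) (tauC cfC2 m 100) B) * 100 := by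
  unfold fD FC2
  change pev [126] _ + HI K m t 4 (vC cfC2 m 100) (tauC cfC2 m 100) B * ((100 : ℕ) : ℝ) = _
  simp only [pev]
  push_cast
  ring

theorem fD_E2 (m t K : ℕ) (B : Finset ℕ) :
    fD FE2 m t 100 K B = HI K m t 3 (vC cfD2 m 100) (tauC cfD2 m 100) B * 100 := by
  unfold fD FE2
  change pev [] _ + HI K m t 3 (vC cfD2 m 100) (tauC cfD2 m 100) B * ((100 : ℕ) : ℝ) = _
  simp [pev]

theorem mem23 : Mem (1 / ((23 : ℕ) : ℝ)) (rat 1 23) := Cells.mem_pt (by norm_num)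

theorem crudeX : CrudeX 23 := by
  intro k L b s B h2 hN
  have HC : Bud DG FC2 N3.b 23 22 100 :=
    bud_of (d := 0) ok_g (by norm_num) (by unfold FC2; norm_num) mem23
  have HE : Bud DH FE2 N3.b 23 23 100 :=
    bud_of (d := 0) ok_h (by norm_num) (by unfold FE2; norm_num) mem23
  have e100 : |((100 : ℝ))| = 100 := abs_of_pos (by norm_num)
  constructor
  · have h := RV.run_abs (D := DG) (n := 2000) rfl rfl (by norm_num) rfl run_g (by norm_num)
      (den := 100) (tb := 22) (by norm_num) mem23 HC h2 hN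
    have h' : |fD FC2 23 22 100 (k + 2) B| ≤ ((2000 : ℤ) : ℝ) := h
    rw [fD_C2, abs_mul, e100] at h'
    push_cast at h'
    norm_num
    linarith
  · have h := RV.run_abs (D := DH) (n := 2000) rfl rfl (by norm_num) rfl run_h (by norm_num)
      (den := 100) (tb := 23) (by norm_num) mem23 HE h2 hN
    have h' : |fD FE2 23 23 100 (k + 2) B| ≤ ((2000 : ℤ) : ℝ) := h
    rw [fD_E2, abs_mul, e100] at h'
    push_cast at h'
    linarith

theorem memR_iff : ∀ (l : List (ℕ × ℕ)) (i j : ℕ), memR l i j = true ↔ (i, j) ∈ l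
  | [], i, j => by simp [memR]
  | p :: l, i, j => by
    have ih := memR_iff l i j
    unfold memR
    rw [Bool.or_eq_true, Bool.and_eq_true, Nat.beq_eq, Nat.beq_eq, ih, List.mem_cons, Prod.ext_iff]
    constructor
    · rintro (⟨h1, h2⟩ | h)
      · exact Or.inl ⟨h1.symm, h2.symm⟩
      · exact Or.inr h
    · rintro (⟨h1, h2⟩ | h)
      · exact Or.inl ⟨h1.symm, h2.symm⟩
      · exact Or.inr h

theorem mainX : MainX 23 := by
  intro k L b s B h2 hN hJ
  have HA : Bud DM FC2 N3.a 23 22 100 :=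
    bud_of (d := 0) ok_ma (by norm_num) (by unfold FC2; norm_num) mem23
  have HK : Bud DM FC2 N3.k 23 22 100 :=
    bud_of (d := 0) ok_mk (by norm_num) (by unfold FC2; norm_num) mem23
  have HE : Bud DM FE2 N3.b 23 23 100 :=
    bud_of (d := 0) ok_mb (by norm_num) (by unfold FE2; norm_num) mem23
  have hR : ∀ i1 i2 : ℕ, (i1 : ℤ) = ((23 : ℕ) : ℤ) - L + DM.o →
      (i2 : ℤ) = ((23 : ℕ) : ℤ) + 1 - b + DM.o → memR DM.R i1 i2 = false := by
    intro i1 i2 h3 h4
    rw [← Bool.not_eq_true, memR_iff]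
    intro hm
    apply hJ
    have key : ∀ p ∈ DM.R, ((p.1 : ℤ) - 12, (p.2 : ℤ) - 12) ∈ JX := by decide
    have h5 := key _ hm
    have e1 : ((i1 : ℤ) - 12, (i2 : ℤ) - 12) = (((23 : ℕ) : ℤ) - L, ((23 : ℕ) : ℤ) + 1 - b) := by
      have ho : ((DM.o : ℕ) : ℤ) = 12 := rfl
      rw [ho] at h3 h4
      rw [h3, h4]
      congr 1 <;> ring
    rw [e1] at h5
    exact h5
  have h := chk_sound run_m (by norm_num) (by norm_num) mem23 HA HK HE h2 hN hR
  obtain ⟨h3, -, h5⟩ := h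
  have h3' : 0 ≤ fD FC2 23 22 100 (k + 2) B := h3
  have h5' : fD FE2 23 23 100 (k + 2) B ^ 2 ≤ fD FC2 23 22 100 (k + 2) B * fD FC2 23 22 100 (k + 2) B := h5
  have h6 : |fD FE2 23 23 100 (k + 2) B| ≤ fD FC2 23 22 100 (k + 2) B :=
    abs_le_of_sq_le_sq (h5'.trans (le_of_eq (by ring))) h3'
  rw [fD_C2, fD_E2, abs_mul, abs_of_pos (by norm_num : (0 : ℝ) < 100)] at h6
  norm_num
  linarith

/-! ### the assembly -/

theorem prodOne_x {t : ℕ} (ht : 23 ≤ t) (H1 : MainX t) (H2 : CrossU t) (H3 : CrudeX t) :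
    ProdOne (2 * t + 1) t (LamF t (63 / 50) (1 / 1000) (7 / 2 / (499 / 500))) := by
  obtain ⟨i, hi⟩ : ∃ i, t = 23 + i := ⟨t - 23, by omega⟩
  have key : ∀ K, 2 ≤ K → ∀ B ∈ Lv K (2 * t), ∃ (k L b s : ℕ), K = k + 2 ∧ Two k L b s B ∧
      L + b + s = 2 * t := by
    intro K hK B hB
    obtain ⟨k, rfl⟩ : ∃ k, K = k + 2 := ⟨K - 2, by omega⟩
    obtain ⟨L, b, s, h1, h2⟩ := exists_two hB
    exact ⟨k, L, b, s, rfl, h2, h1.symm⟩
  have eC : ∀ (K : ℕ) (B : Finset ℕ),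
      HI K (t + 1) (t - 1) 3 (fun q p => vC cfC2 t 100 (q + 1) p) (tauC cfC2 t 100) B =
        HI K t (t - 1) 4 (vC cfC2 t 100) (tauC cfC2 t 100) B := fun K B =>
    (HI_drop (C2_zero t) _ B).symm
  have eV : ∀ (K : ℕ) (B : Finset ℕ),
      HI K (t - 1) (t + 1) 3 (shl (vC cfV t 100)) (tauC cfV t 100) B =
        HI K t (t + 1) 2 (vC cfV t 100) (tauC cfV t 100) B := fun K B => by
    rw [HI_shl, Nat.sub_add_cancel (by omega)]
  refine prodOne_of_cd (μ := 23) (i := i) (p1 := 2) (Qc := 3) (Qd := 3) (Qv := 3) hi (by omega)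
    (by norm_num) (by norm_num) (by norm_num)
    (fun q p => vC cfC2 t 100 (q + 1) p) (vC cfD2 t 100) (shl (vC cfV t 100))
    (tauC cfC2 t 100) (tauC cfD2 t 100) (tauC cfV t 100) (63 / 50) (7 / 2) 20 (1 / 1000) (499 / 500)
    (by norm_num) (by norm_num) (fun q p hp => vC_two hp) (fun q p hp => vC_two hp) ?_ ?_ ?_ ?_ ?_ ?_ ?_
    admX (by norm_num) (K₁ := 2) ?_ ?_ ?_ (by norm_num) (by norm_num)
  · intro q p hp
    cases q with
    | zero => rfl
    | succ q => exact vC_two hp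
  · exact sum_eq_zero fun p _ => by
      rw [zero_add, C2_one, zero_mul]
  · exact D2_ex (by omega)
  · exact sum_eq_zero fun p _ => by
      change (0 : ℝ) * _ = 0
      rw [zero_mul]
  · exact C2_sv (by omega)
  · exact D2_sv (by omega)
  · exact V_sv (by omega)
  · intro K hK B hB hR
    obtain ⟨k, L, b, s, rfl, h2, h3⟩ := key K hK B hB
    rw [eC, eV]
    refine ⟨H1 k L b s B h2 h3 fun hJ => hR ?_, H2 k L b s B h2 h3⟩
    rw [← rowsOfX]
    exact (rar_layer hi JX_bd h2).2 hJ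
  · intro K hK B hB hR
    obtain ⟨k, L, b, s, rfl, h2, h3⟩ := key K hK B hB
    rw [eC, eV]
    obtain ⟨h4, h5⟩ := H3 k L b s B h2 h3
    exact ⟨h4, h5, (H2 k L b s B h2 h3).trans (by norm_num)⟩
  · have := costX
    linarith

/-- the final inequality, `t ≥ 23` -/
theorem lam_x {t : ℕ} (ht : 23 ≤ t) :
    LamF t (63 / 50) (1 / 1000) (7 / 2 / (499 / 500)) ≤ KD t / (t + 1) * (1 - KD t / (t + 1)) :=
  LamF_leD (t₀ := 23) (A := 12636 / 10000) (C := 1284 / 100) (by norm_num) ht (by norm_num)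
    (by norm_num) (by norm_num) (by norm_num) (by norm_num) (by norm_num) (by norm_num)

/-- **`m = 24`** -/
theorem holds_47 (hK : ∀ n' t' : ℕ, 2 * t' + 3 ≤ n' → Holds n' t') : Holds 47 23 :=
  holds_D (t := 23) (by norm_num) (prodOne_x (by norm_num) mainX (RV.cross_w 23 (by norm_num)) crudeX)
    (lam_x (by norm_num)) (link_all 23 (by norm_num)) hK

end Pool.EGX
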